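import Pool.Agent.N931.PN.Stm
import Pool.Agent.H974R2.BK

/-!
Project PN (helper931), part BKH: three arms by the inequalities of van den Berg-Kesten and Harris.
-/

set_option autoImplicit false

namespace Pool.Agent.N692.PN.BKH

open H974 H12S H389NS H984N H984P H342P Finset
open Pool.Agent.N116.EW
open Pool.Agent.N931.PN

theorem reach_restr {G : Set Edg} {u w : Vtx} (h : Reach G u w) :
    Reach {e | e ∈ G ∧ Reach G u (src e)} u w := by
  induction h with
  | refl => exact Relation.ReflTransGen.refl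
  | @tail b c hb hs ih =>
    have hbc := hs
    obtain ⟨e, he, h⟩ := hs
    refine Relation.ReflTransGen.tail ih ⟨e, ⟨he, ?_⟩, h⟩
    rcases h with h | h
    · rw [h.1]; exact hb
    · rw [h.1]; exact Relation.ReflTransGen.tail hb hbc

theorem dreach_restr {G : Set Edg} {u w : Vtx} (h : DReach G u w) :
    DReach {e | e ∈ G ∧ DReach G u (dsrc e)} u w := by
  induction h with
  | refl => exact Relation.ReflTransGen.refl
  | @tail b c hb hs ih =>
    have hbc := hs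
    obtain ⟨e, he, h⟩ := hs
    refine Relation.ReflTransGen.tail ih ⟨e, ⟨he, ?_⟩, h⟩
    rcases h with h | h
    · rw [h.1]; exact hb
    · rw [h.1]; exact Relation.ReflTransGen.tail hb hbc

theorem oE_mono {z : Vtx} {d R : ℕ} {F G : Finset Edg} (h : F ⊆ G) : oE z d R F ⊆ oE z d R G :=
  Set.inter_subset_inter_left _ (by exact_mod_cast h)

theorem OAr_mono {z : Vtx} {d R : ℕ} {F G : Finset Edg} (h : F ⊆ G) (hF : OAr z d R F) :
    OAr z d R G := by
  obtain ⟨u, w, h1, h2, h3⟩ := hF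
  exact ⟨u, w, h1, h2, h3.mono (oE_mono h)⟩

theorem incr_disj {S : Finset Edg} (A B : Finset Edg → Prop) : IncrE S (DisjOcc A B) := by
  rintro F G h1 - ⟨K, L, a1, a2, a3, a4, a5⟩
  exact ⟨K, L, a1.trans h1, a2.trans h1, a3, a4, a5⟩

theorem OO_disj {z : Vtx} {d R : ℕ} {F : Finset Edg} (h : OO z d R F) :
    DisjOcc (OAr z d R) (OAr z d R) F := by
  classical
  obtain ⟨u, w, u', w', ⟨h1, h2, h3⟩, ⟨h4, h5, h6⟩, h7⟩ := h
  refine ⟨F.filter (fun e => Reach (oE z d R F) u (src e)),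
    F.filter (fun e => Reach (oE z d R F) u' (src e)), Finset.filter_subset _ _,
    Finset.filter_subset _ _, ?_, ?_, ?_⟩
  · rw [Finset.disjoint_left]
    intro e he he'
    rw [Finset.mem_filter] at he he'
    exact h7 (he.2.trans he'.2.symm)
  · refine ⟨u, w, h1, h2, (reach_restr h3).mono ?_⟩
    rintro e ⟨he1, he2⟩
    exact ⟨by rw [Finset.mem_coe, Finset.mem_filter]; exact ⟨he1.1, he2⟩, he1.2⟩
  · refine ⟨u', w', h4, h5, (reach_restr h6).mono ?_⟩
    rintro e ⟨he1, he2⟩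
    exact ⟨by rw [Finset.mem_coe, Finset.mem_filter]; exact ⟨he1.1, he2⟩, he1.2⟩

/-- dual arm through the edges of `F` -/
def CAr (z : Vtx) (d R : ℕ) (F : Finset Edg) : Prop :=
  ∃ f g : Vtx, sd f z ≤ d + 1 ∧ (R : ℤ) ≤ sd g z ∧ DReach (oE z d R F) f g

/-- two dual arms through the edges of `F` -/
def CC (z : Vtx) (d R : ℕ) (F : Finset Edg) : Prop :=
  ∃ f g f' g' : Vtx, (sd f z ≤ d + 1 ∧ (R : ℤ) ≤ sd g z ∧ DReach (oE z d R F) f g) ∧
    (sd f' z ≤ d + 1 ∧ (R : ℤ) ≤ sd g' z ∧ DReach (oE z d R F) f' g') ∧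
    ¬ DReach (oE z d R F) f f'

theorem CAr_mono {z : Vtx} {d R : ℕ} {F G : Finset Edg} (h : F ⊆ G) (hF : CAr z d R F) :
    CAr z d R G := by
  obtain ⟨u, w, h1, h2, h3⟩ := hF
  exact ⟨u, w, h1, h2, h3.mono (oE_mono h)⟩

theorem CC_disj {z : Vtx} {d R : ℕ} {F : Finset Edg} (h : CC z d R F) :
    DisjOcc (CAr z d R) (CAr z d R) F := by
  classical
  obtain ⟨u, w, u', w', ⟨h1, h2, h3⟩, ⟨h4, h5, h6⟩, h7⟩ := h
  refine ⟨F.filter (fun e => DReach (oE z d R F) u (dsrc e)),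
    F.filter (fun e => DReach (oE z d R F) u' (dsrc e)), Finset.filter_subset _ _,
    Finset.filter_subset _ _, ?_, ?_, ?_⟩
  · rw [Finset.disjoint_left]
    intro e he he'
    rw [Finset.mem_filter] at he he'
    exact h7 (he.2.trans he'.2.symm)
  · refine ⟨u, w, h1, h2, (dreach_restr h3).mono ?_⟩
    rintro e ⟨he1, he2⟩
    exact ⟨by rw [Finset.mem_coe, Finset.mem_filter]; exact ⟨he1.1, he2⟩, he1.2⟩
  · refine ⟨u', w', h4, h5, (dreach_restr h6).mono ?_⟩
    rintro e ⟨he1, he2⟩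
    exact ⟨by rw [Finset.mem_coe, Finset.mem_filter]; exact ⟨he1.1, he2⟩, he1.2⟩

theorem cE_eq (D : Dm) (z : Vtx) (d R : ℕ) (F : Finset Edg) :
    cE D z d R F = oE z d R (D.edges \ F) := by
  ext e
  unfold cE oE
  simp only [Set.mem_ofPred_eq, Set.mem_inter_iff, Finset.mem_coe, Finset.mem_sdiff]
  tauto

theorem DAr_iff (D : Dm) (z : Vtx) (d R : ℕ) (F : Finset Edg) :
    DAr D z d R F ↔ CAr z d R (D.edges \ F) := by
  unfold DAr CAr
  rw [cE_eq]

theorem DD_iff (D : Dm) (z : Vtx) (d R : ℕ) (F : Finset Edg) :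
    DD D z d R F ↔ CC z d R (D.edges \ F) := by
  unfold DD CC
  rw [cE_eq]

theorem pr_half (S : Finset Edg) (A : Finset Edg → Prop) :
    Pr (fun _ => (1 / 2 : ℝ)) S A = Pr (fun _ => (1 / 2 : ℝ)) S (fun F => A (S \ F)) := by
  have h := Pr_compl (fun _ : Edg => (1/2 : ℝ)) S A
  refine Eq.trans ?_ h
  have h0 : (fun _ : Edg => (1 - 1/2 : ℝ)) = fun _ => (1/2 : ℝ) := by
    funext e
    norm_num
  rw [h0]

theorem three {S : Finset Edg} {A B C X : Finset Edg → Prop} (hA : IncrE S A)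
    (hX : ∀ F, F ⊆ S → X F → DisjOcc A A F)
    (hB : IncrE S (fun F => ¬ B F)) (hC : ∀ F, F ⊆ S → (C F ↔ B F)) :
    Pr (fun _ => (1 / 2 : ℝ)) S (fun F => X F ∧ C F) ≤
      Pr (fun _ => (1 / 2 : ℝ)) S A ^ 2 * Pr (fun _ => (1 / 2 : ℝ)) S C := by
  have hok : Ok (fun _ : Edg => (1 / 2 : ℝ)) := fun _ => by constructor <;> norm_num
  have h1 : Pr (fun _ => (1 / 2 : ℝ)) S (fun F => X F ∧ C F) ≤
      Pr (fun _ => (1 / 2 : ℝ)) S (fun F => DisjOcc A A F ∧ B F) := by
    apply Pr_mono hok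
    rintro F hF ⟨h1, h2⟩
    exact ⟨hX F hF h1, (hC F hF).1 h2⟩
  have h2 := Pr_harris_decr hok (incr_disj (S := S) A A) hB
  have h3 := bk hok hA hA
  have h4 : Pr (fun _ => (1 / 2 : ℝ)) S C = Pr (fun _ => (1 / 2 : ℝ)) S B := Pr_congr hC
  have h5 : 0 ≤ Pr (fun _ => (1 / 2 : ℝ)) S B := Pr_nonneg hok _ _
  rw [h4, sq]
  exact h1.trans (h2.trans (mul_le_mul_of_nonneg_right h3 h5))

/-- PN/BKH. -/
theorem main : S_BKH := by
  intro D z d R
  constructor
  · refine three (A := OAr z d R) (B := DAr D z d R) (fun F G h _ => OAr_mono h)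
      (fun F _ h => OO_disj h) ?_ (fun F _ => Iff.rfl)
    intro F G h _ h1 h2
    rw [DAr_iff] at h1 h2
    exact h1 (CAr_mono (Finset.sdiff_subset_sdiff le_rfl h) h2)
  · rw [pr_half D.edges (fun F => DD D z d R F ∧ OAr z d R F), pr_half D.edges (DAr D z d R),
      pr_half D.edges (OAr z d R)]
    have h := three (S := D.edges) (A := CAr z d R) (X := fun F => DD D z d R (D.edges \ F))
      (B := fun F => OAr z d R (D.edges \ F)) (C := fun F => OAr z d R (D.edges \ F))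
      (fun F G h _ => CAr_mono h) (fun F hF h => by
        rw [DD_iff, Finset.sdiff_sdiff_eq_self hF] at h
        exact CC_disj h) (fun F G h _ h1 h2 =>
          h1 (OAr_mono (Finset.sdiff_subset_sdiff le_rfl h) h2)) (fun F _ => Iff.rfl)
    have h1 : Pr (fun _ => (1 / 2 : ℝ)) D.edges (fun F => DAr D z d R (D.edges \ F)) =
        Pr (fun _ => (1 / 2 : ℝ)) D.edges (CAr z d R) := by
      apply Pr_congr
      intro F hF
      rw [DAr_iff, Finset.sdiff_sdiff_eq_self hF]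
    rw [h1]
    exact h

end Pool.Agent.N692.PN.BKH
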